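import Mathlib
import Pool.Agent.Q186.SM.Ric4M

/-!
# Immersions with normal curvature below `√(9/5)`: the conformal Ricci condition (R)

Definitions (all in `Pool/Agent/Q186/SM/Ric4Def.lean` and `Pool/Agent/Q186/SM/Conn.lean`):
`loc f p` is `f` read in the preferred chart at `p`, `met f p` the induced metric in that chart,
`secondFF f p` the second fundamental form at `p`, `maxNormalCurvature E f` the supremum of
`|A(x, x)|` over unit tangent vectors, `ConditionR U g u` condition (R) for the metric `g` on
the chart domain `U` at the point `u` (with its Levi-Civita connection and curvature tensor).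
-/

open scoped Manifold ContDiff

namespace Pool.Agent.Results.MP_f2e772_gt.ConformalR

open Q186.SM

/-- Let `X` be a closed smooth 4-manifold (modelled on a Euclidean space `E` of dimension 4) and
`f : X → V` a smooth immersion into a Euclidean space `V` (any `ℝ^N`), with values in the closed
unit ball and maximal normal curvature `< √(9/5)`. Then the induced metric `g` is conformal to a
metric satisfying condition (R): with the smooth function `ψ = -(9/8) |f|²`, the metric
`e^{2ψ} g` satisfies `2 Ric(v, v) < scal` at every point `p` for every unit vector `v`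
(the metric is written in the preferred chart at `p`). -/
theorem result {E V X : Type*} [NormedAddCommGroup E] [InnerProductSpace ℝ E]
    [FiniteDimensional ℝ E] [NormedAddCommGroup V] [InnerProductSpace ℝ V]
    [FiniteDimensional ℝ V] [TopologicalSpace X] [CompactSpace X] [ChartedSpace E X]
    [IsManifold 𝓘(ℝ, E) ∞ X] (_h4 : Module.finrank ℝ E = 4) (f : X → V)
    (hf : ContMDiff 𝓘(ℝ, E) 𝓘(ℝ, V) ∞ f)
    (himm : ∀ p, Function.Injective (mfderiv 𝓘(ℝ, E) 𝓘(ℝ, V) f p))
    (hball : ∀ p, ‖f p‖ ≤ 1)
    (hc : maxNormalCurvature E f < ENNReal.ofReal (√(9 / 5))) :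
    ∃ ψ : X → ℝ, ContMDiff 𝓘(ℝ, E) 𝓘(ℝ, ℝ) ∞ ψ ∧ (∀ p, ψ p = -(9 / 8) * ‖f p‖ ^ 2) ∧
      ∀ p, ConditionR (chartAt E p).target
        (fun u x y => Real.exp (2 * ψ ((chartAt E p).symm u)) * met f p u x y)
        (chartAt E p p) :=
  ⟨psiX f, contMDiff_psiX hf, fun _ => rfl, ricciR_core hf himm hball hc⟩

end Pool.Agent.Results.MP_f2e772_gt.ConformalR
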